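import Pool.Agent.Run7.h400.GK.StmA

set_option autoImplicit false

namespace Run7.h11.GK

open Polynomial Finset
open Run7.h400.GK

section
variable {Fq F : Type} [Field Fq] [Fintype Fq] [Field F] [Algebra Fq[X] F]

lemma add_pow_q {q : ℕ} (hq : q = Fintype.card Fq) {R : Type} [CommRing R]
    (g : Fq →+* R) (x y : R) : (x + y) ^ q = x ^ q + y ^ q := by
  obtain ⟨p, hp⟩ := CharP.exists Fq
  obtain ⟨n, hpp, hn⟩ := FiniteField.card Fq p
  have : Fact p.Prime := ⟨hpp⟩
  rcases subsingleton_or_nontrivial R with hR | hR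
  · exact Subsingleton.elim _ _
  have : CharP R p := (RingHom.charP_iff g g.injective p).1 hp
  rw [hq, hn]
  exact add_pow_char_pow x y p n

lemma const_pow_q {q : ℕ} (hq : q = Fintype.card Fq) (c : Fq) :
    (algebraMap Fq[X] F (C c)) ^ q = algebraMap Fq[X] F (C c) := by
  rw [← map_pow, ← C_pow, hq, FiniteField.pow_card]

variable (Fq F) in
/-- the map `y ↦ T y + y^q` -/
noncomputable def ph (q : ℕ) (hq : q = Fintype.card Fq) : AddMonoid.End F where
  toFun y := algebraMap Fq[X] F X * y + y ^ q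
  map_zero' := by
    have : q ≠ 0 := by
      rw [hq]
      exact Fintype.card_ne_zero
    simp [this]
  map_add' x y := by
    rw [add_pow_q (Fq := Fq) hq ((algebraMap Fq[X] F).comp C)]
    ring

variable (Fq F) in
/-- multiplication by constants -/
noncomputable def mc : Fq →+* AddMonoid.End F :=
  (Module.toAddMonoidEnd F F).comp ((algebraMap Fq[X] F).comp C)

lemma mc_apply (c : Fq) (x : F) : mc Fq F c x = algebraMap Fq[X] F (C c) * x := rfl

lemma ph_apply (q : ℕ) (hq : q = Fintype.card Fq) (x : F) :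
    ph Fq F q hq x = algebraMap Fq[X] F X * x + x ^ q := rfl

lemma comm_mc (q : ℕ) (hq : q = Fintype.card Fq) (c : Fq) :
    Commute (mc Fq F c) (ph Fq F q hq) := by
  refine AddMonoidHom.ext fun x => ?_
  show mc Fq F c (ph Fq F q hq x) = ph Fq F q hq (mc Fq F c x)
  rw [mc_apply, ph_apply, ph_apply, mc_apply, mul_pow, const_pow_q hq]
  ring

variable (Fq F) in
/-- the Carlitz module -/
noncomputable def cR (q : ℕ) (hq : q = Fintype.card Fq) : Fq[X] →+* AddMonoid.End F :=
  eval₂RingHom' (mc Fq F) (ph Fq F q hq) (comm_mc q hq)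

lemma cR_apply (q : ℕ) (hq : q = Fintype.card Fq) (a : Fq[X]) (x : F) :
    cR Fq F q hq a x = cact q a x := by
  show eval₂ (mc Fq F) (ph Fq F q hq) a x = _
  rw [eval₂_eq_sum, cact, Polynomial.sum_def, Polynomial.sum_def]
  have h : ∀ (S : Finset ℕ) (f : ℕ → AddMonoid.End F), (∑ i ∈ S, f i) x = ∑ i ∈ S, f i x :=
    fun S f => AddMonoidHom.finsetSum_apply f S x
  rw [h]
  apply Finset.sum_congr rfl
  intro i _
  show mc Fq F (a.coeff i) ((ph Fq F q hq ^ i) x) = _
  rw [mc_apply, AddMonoid.End.coe_pow]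
  rfl

end

theorem t_CAL : S_CAL := by
  intro Fq F _ _ _ _ q hq
  refine ⟨?_, ?_, ?_, ?_, ?_, ?_⟩
  · intro a x y
    rw [← cR_apply q hq, ← cR_apply q hq, ← cR_apply q hq, map_add]
  · intro a b x
    rw [← cR_apply q hq, ← cR_apply q hq, ← cR_apply q hq, map_add]
    rfl
  · intro a b x
    rw [← cR_apply q hq, ← cR_apply q hq, ← cR_apply q hq, map_mul]
    rfl
  · intro c x
    unfold cact
    rw [sum_C_index]
    · rfl
    · simp
  · intro x
    unfold cact
    rw [sum_X_index]
    · simp
    · simp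
  · intro L _ _ s hs a x
    unfold cact
    rw [Polynomial.sum_def, Polynomial.sum_def, map_sum]
    apply Finset.sum_congr rfl
    intro i _
    rw [map_mul, hs]
    congr 1
    have h : Function.Semiconj s (fun y : F => algebraMap Fq[X] F X * y + y ^ q)
        (fun y : L => algebraMap Fq[X] L X * y + y ^ q) := by
      intro y
      simp only [map_add, map_mul, map_pow, hs]
    exact (h.iterate_right i) x

end Run7.h11.GK
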