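import Pool.Agent.Run7.h11.GK.CAL

set_option autoImplicit false

namespace Run7.h11.GK

open Polynomial Finset
open Run7.h400.GK

section
variable (Fq : Type) [Field Fq]

/-- the coefficient of `τ^i` in `C_(X^j)` -/
noncomputable def cX (q : ℕ) : ℕ → ℕ → Fq[X]
  | 0, 0 => 1
  | 0, _ + 1 => 0
  | j + 1, 0 => X * cX q j 0
  | j + 1, i + 1 => X * cX q j (i + 1) + cX q j i ^ q

variable [Fintype Fq]

lemma cX_rec {q : ℕ} (hq : q = Fintype.card Fq) (j : ℕ) : ∀ i,
    cX Fq q (j + 1) (i + 1) = X ^ (q ^ (i + 1)) * cX Fq q j (i + 1) + cX Fq q j i := by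
  have hadd : ∀ x y : Fq[X], (x + y) ^ q = x ^ q + y ^ q :=
    fun x y => add_pow_q (Fq := Fq) hq (C : Fq →+* Fq[X]) x y
  have hq0 : q ≠ 0 := by
    rw [hq]
    exact Fintype.card_ne_zero
  induction j with
  | zero =>
    intro i
    rw [cX]
    cases i with
    | zero => simp [cX]
    | succ i => simp [cX, hq0]
  | succ j ih =>
    intro i
    rw [cX]
    cases i with
    | zero =>
      rw [ih 0]
      have e1 : cX Fq q (j + 1) 0 = X * cX Fq q j 0 := rfl
      have e2 : cX Fq q (j + 1) (0 + 1) = X * cX Fq q j (0 + 1) + cX Fq q j 0 ^ q := rfl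
      have e3 : cX Fq q (j + 1) (0 + 1) = X ^ (q ^ (0 + 1)) * cX Fq q j (0 + 1) + cX Fq q j 0 := ih 0
      rw [e1, mul_pow]
      have e4 : X ^ (q ^ (0 + 1)) * cX Fq q j (0 + 1) + cX Fq q j 0 =
        X * cX Fq q j (0 + 1) + cX Fq q j 0 ^ q := by rw [← e3, e2]
      have e5 : (X : Fq[X]) ^ (q ^ (0 + 1)) = X ^ q := by simp
      rw [e5] at e4 ⊢
      linear_combination (-X ^ q) * e4
    | succ i =>
      have e3 := ih (i + 1)
      have e6 : cX Fq q (j + 1) (i + 1 + 1) =
        X * cX Fq q j (i + 1 + 1) + cX Fq q j (i + 1) ^ q := rfl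
      have e7 := ih i
      have e8 : cX Fq q (j + 1) (i + 1) ^ q =
          X ^ (q ^ (i + 1 + 1)) * cX Fq q j (i + 1) ^ q + cX Fq q j i ^ q := by
        rw [e7, hadd, mul_pow, ← pow_mul, ← pow_succ]
      have e9 : cX Fq q (j + 1) (i + 1) = X * cX Fq q j (i + 1) + cX Fq q j i ^ q := rfl
      rw [e8]
      linear_combination X * e3 - X ^ (q ^ (i + 1 + 1)) * e6 - e9

lemma cX_zero (q : ℕ) (j : ℕ) : cX Fq q j 0 = X ^ j := by
  induction j with
  | zero => simp [cX]
  | succ j ih =>
    rw [cX, ih]
    ring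

lemma cX_gt {q : ℕ} (hq : q ≠ 0) (j : ℕ) : ∀ i, j < i → cX Fq q j i = 0 := by
  induction j with
  | zero =>
    intro i hi
    cases i with
    | zero => omega
    | succ i => rfl
  | succ j ih =>
    intro i hi
    cases i with
    | zero => omega
    | succ i =>
      rw [cX, ih (i + 1) (by omega), ih i (by omega), zero_pow hq]
      simp

lemma cX_self {q : ℕ} (hq : q ≠ 0) (j : ℕ) : cX Fq q j j = 1 := by
  induction j with
  | zero => rfl
  | succ j ih =>
    rw [cX, ih, cX_gt Fq hq j (j + 1) (by omega)]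
    simp

variable {Fq}

lemma iter_eq {F : Type} [Field F] [Algebra Fq[X] F] {q : ℕ} (hq : q = Fintype.card Fq)
    (N : ℕ) (x : F) : ∀ j, j ≤ N →
    (fun y : F => algebraMap Fq[X] F X * y + y ^ q)^[j] x =
      ∑ i ∈ range (N + 1), algebraMap Fq[X] F (cX Fq q j i) * x ^ (q ^ i) := by
  have hq0 : q ≠ 0 := by
    rw [hq]
    exact Fintype.card_ne_zero
  intro j
  induction j with
  | zero =>
    intro _
    rw [Finset.sum_range_succ']
    simp [cX]
  | succ j ih =>
    intro hj
    rw [Function.iterate_succ_apply', ih (by omega)]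
    have hpow : (∑ i ∈ range (N + 1), algebraMap Fq[X] F (cX Fq q j i) * x ^ (q ^ i)) ^ q =
        ∑ i ∈ range (N + 1), (algebraMap Fq[X] F (cX Fq q j i)) ^ q * x ^ (q ^ (i + 1)) := by
      have hs : ∀ (S : Finset ℕ) (f : ℕ → F), (∑ i ∈ S, f i) ^ q = ∑ i ∈ S, f i ^ q := by
        intro S f
        classical
        induction S using Finset.induction_on with
        | empty => simp [hq0]
        | insert i S hi ih =>
          rw [Finset.sum_insert hi, Finset.sum_insert hi,
            add_pow_q (Fq := Fq) hq ((algebraMap Fq[X] F).comp C), ih]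
      rw [hs]
      apply Finset.sum_congr rfl
      intro i _
      rw [mul_pow, ← pow_mul, ← pow_succ]
    rw [hpow, Finset.sum_range_succ (fun i => (algebraMap Fq[X] F (cX Fq q j i)) ^ q *
      x ^ (q ^ (i + 1))), cX_gt Fq hq0 j N (by omega), map_zero, zero_pow hq0, zero_mul, add_zero,
      Finset.sum_range_succ', Finset.sum_range_succ', mul_add, Finset.mul_sum]
    have e0 : algebraMap Fq[X] F (cX Fq q (j + 1) 0) =
        algebraMap Fq[X] F X * algebraMap Fq[X] F (cX Fq q j 0) := by
      rw [← map_mul]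
      rfl
    have e1 : ∀ i, algebraMap Fq[X] F (cX Fq q (j + 1) (i + 1)) =
        algebraMap Fq[X] F X * algebraMap Fq[X] F (cX Fq q j (i + 1)) +
          (algebraMap Fq[X] F (cX Fq q j i)) ^ q := by
      intro i
      rw [← map_mul, ← map_pow, ← map_add]
      rfl
    rw [e0]
    have e2 : ∑ i ∈ range N, algebraMap Fq[X] F (cX Fq q (j + 1) (i + 1)) * x ^ (q ^ (i + 1)) =
        ∑ i ∈ range N, algebraMap Fq[X] F X *
          (algebraMap Fq[X] F (cX Fq q j (i + 1)) * x ^ (q ^ (i + 1))) +
        ∑ i ∈ range N, (algebraMap Fq[X] F (cX Fq q j i)) ^ q * x ^ (q ^ (i + 1)) := by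
      rw [← Finset.sum_add_distrib]
      apply Finset.sum_congr rfl
      intro i _
      rw [e1]
      ring
    rw [e2]
    ring

lemma not_dvd_X_pow {w : Fq[X]} {q d m : ℕ} (hq : q = Fintype.card Fq) (hw : Irreducible w)
    (hd : w.natDegree = d) (hm0 : 0 < m) (hm : m < d) : ¬ w ∣ (X : Fq[X]) ^ (q ^ m) - X := by
  intro hdvd
  have hq1 : 1 < q := by
    rw [hq]
    exact Fintype.one_lt_card
  have : Fact (Irreducible w) := ⟨hw⟩
  have hroot : (AdjoinRoot.root w) ^ (q ^ m) = AdjoinRoot.root w := by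
    have h1 : AdjoinRoot.mk w ((X : Fq[X]) ^ (q ^ m) - X) = 0 := AdjoinRoot.mk_eq_zero.2 hdvd
    rw [map_sub, map_pow, AdjoinRoot.mk_X] at h1
    exact sub_eq_zero.1 h1
  have hpb := AdjoinRoot.powerBasis hw.ne_zero
  have hfd : Module.Finite Fq (AdjoinRoot w) := (AdjoinRoot.powerBasis hw.ne_zero).finite
  have hrank : Module.finrank Fq (AdjoinRoot w) = d := by
    rw [(AdjoinRoot.powerBasis hw.ne_zero).finrank, AdjoinRoot.powerBasis_dim, hd]
  have hfin : Finite (AdjoinRoot w) := Module.finite_of_finite Fq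
  have hft : Fintype (AdjoinRoot w) := Fintype.ofFinite _
  have hcard : Fintype.card (AdjoinRoot w) = q ^ d := by
    rw [Module.card_eq_pow_finrank (K := Fq) (V := AdjoinRoot w), hrank, hq]
  have hall : ∀ x : AdjoinRoot w, x ^ (q ^ m) = x := by
    intro x
    obtain ⟨a, rfl⟩ := AdjoinRoot.mk_surjective x
    have hadd : ∀ (r : ℕ) (x y : AdjoinRoot w), (x + y) ^ (q ^ r) = x ^ (q ^ r) + y ^ (q ^ r) := by
      intro r
      induction r with
      | zero => intro x y; simp
      | succ r ih =>
        intro x y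
        rw [pow_succ, pow_mul, pow_mul, pow_mul, ih,
          add_pow_q (Fq := Fq) hq (AdjoinRoot.of w)]
    have hc : ∀ (r : ℕ) (c : Fq), (AdjoinRoot.of w c) ^ (q ^ r) = AdjoinRoot.of w c := by
      intro r c
      rw [← map_pow, hq, FiniteField.pow_card_pow]
    induction a using Polynomial.induction_on' with
    | add a b ha hb => rw [map_add, hadd, ha, hb]
    | monomial n c =>
      rw [← C_mul_X_pow_eq_monomial, map_mul, map_pow, AdjoinRoot.mk_X, AdjoinRoot.mk_C, mul_pow,
        hc, ← pow_mul, mul_comm n, pow_mul, hroot]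
  have hne : ((X : (AdjoinRoot w)[X]) ^ (q ^ m) - X) ≠ 0 :=
    FiniteField.X_pow_card_pow_sub_X_ne_zero _ hm0.ne' hq1
  have h1 : Fintype.card (AdjoinRoot w) ≤ q ^ m := by
    have h2 : (Finset.univ : Finset (AdjoinRoot w)).card ≤
        ((X : (AdjoinRoot w)[X]) ^ (q ^ m) - X).natDegree := by
      apply Polynomial.card_le_degree_of_subset_roots
      intro x _
      rw [mem_roots hne, IsRoot.def, eval_sub, eval_pow, eval_X, hall x, sub_self]
    rw [FiniteField.X_pow_card_pow_sub_X_natDegree_eq _ hm0.ne' hq1] at h2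
    exact h2
  rw [hcard] at h1
  have := (Nat.pow_le_pow_iff_right hq1).1 h1
  omega

end

theorem t_CAR : S_CAR := by
  intro Fq _ _ w q d hq hirr hmon hdeg
  have hq0 : q ≠ 0 := by
    rw [hq]
    exact Fintype.card_ne_zero
  set cc : ℕ → Fq[X] := fun i => ∑ j ∈ range (d + 1), C (w.coeff j) * cX Fq q j i with hcc
  have hw : w = ∑ j ∈ range (d + 1), C (w.coeff j) * X ^ j := by
    conv_lhs => rw [w.as_sum_range_C_mul_X_pow, hdeg]
  have hcc0 : cc 0 = w := by
    rw [hcc]
    simp only [cX_zero]
    exact hw.symm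
  refine ⟨cc, hcc0, ?_, ?_, ?_⟩
  · rw [hcc]
    simp only
    rw [Finset.sum_range_succ, cX_self Fq hq0, Finset.sum_eq_zero, zero_add, ← hdeg,
      hmon.coeff_natDegree]
    · simp
    · intro j hj
      rw [Finset.mem_range] at hj
      rw [cX_gt Fq hq0 j d hj, mul_zero]
  · intro i
    induction i with
    | zero =>
      intro _
      rw [hcc0]
    | succ i ih =>
      intro hi
      have h1 := ih (by omega)
      have hpow : cc i ^ q = ∑ j ∈ range (d + 1), C (w.coeff j) * cX Fq q j i ^ q := by
        have hs : ∀ (S : Finset ℕ) (f : ℕ → Fq[X]), (∑ i ∈ S, f i) ^ q = ∑ i ∈ S, f i ^ q := by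
          intro S f
          classical
          induction S using Finset.induction_on with
          | empty => simp [hq0]
          | insert i S hi ih =>
            rw [Finset.sum_insert hi, Finset.sum_insert hi,
              add_pow_q (Fq := Fq) hq (C : Fq →+* Fq[X]), ih]
        rw [hcc]
        simp only
        rw [hs]
        apply Finset.sum_congr rfl
        intro j _
        rw [mul_pow, ← C_pow, hq, FiniteField.pow_card]
      have e1 : ∑ j ∈ range (d + 1), C (w.coeff j) * cX Fq q (j + 1) (i + 1) =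
          X * cc (i + 1) + cc i ^ q := by
        rw [hpow]
        simp only [hcc]
        rw [Finset.mul_sum, ← Finset.sum_add_distrib]
        apply Finset.sum_congr rfl
        intro j _
        rw [cX]
        ring
      have e2 : ∑ j ∈ range (d + 1), C (w.coeff j) * cX Fq q (j + 1) (i + 1) =
          X ^ (q ^ (i + 1)) * cc (i + 1) + cc i := by
        simp only [hcc]
        rw [Finset.mul_sum, ← Finset.sum_add_distrib]
        apply Finset.sum_congr rfl
        intro j _
        rw [cX_rec Fq hq]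
        ring
      have e3 : (X ^ (q ^ (i + 1)) - X) * cc (i + 1) = cc i ^ q - cc i := by
        linear_combination e1 - e2
      have h2 : w ∣ (X ^ (q ^ (i + 1)) - X) * cc (i + 1) := by
        rw [e3]
        exact dvd_sub (dvd_pow h1 hq0) h1
      rcases hirr.prime.dvd_or_dvd h2 with h3 | h3
      · exact absurd h3 (not_dvd_X_pow hq hirr hdeg (by omega) hi)
      · exact h3
  · intro F _ _ x
    unfold cact
    rw [w.sum_over_range, hdeg]
    · rw [Finset.sum_congr rfl fun j hj => by
        rw [iter_eq hq d x j (by have := Finset.mem_range.1 hj; omega)]]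
      simp only [Finset.mul_sum]
      rw [Finset.sum_comm]
      apply Finset.sum_congr rfl
      intro i _
      rw [hcc]
      simp only
      rw [map_sum, Finset.sum_mul]
      apply Finset.sum_congr rfl
      intro j _
      rw [map_mul]
      ring
    · intro n
      simp

end Run7.h11.GK
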