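import Pool.Agent.Run7.h11.GK.CAL

set_option autoImplicit false

namespace Run7.h11.GK

open Polynomial Finset
open Run7.h400.GK

section
variable {F : Type} [Field F] (p : ℕ) (T : F)

/-- `x = ∑_(i<p) x_i^p T^i` -/
def PT (x : F) : Prop := ∃ xs : ℕ → F, x = ∑ i ∈ range p, xs i ^ p * T ^ i

variable {p T} [hpp : Fact p.Prime] [CharP F p]

lemma PT.add {x y : F} (hx : PT p T x) (hy : PT p T y) : PT p T (x + y) := by
  obtain ⟨xs, rfl⟩ := hx
  obtain ⟨ys, rfl⟩ := hy
  refine ⟨fun i => xs i + ys i, ?_⟩
  rw [← Finset.sum_add_distrib]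
  apply Finset.sum_congr rfl
  intro i _
  rw [add_pow_char]
  ring

lemma PT.zero : PT p T (0 : F) := by
  refine ⟨fun _ => 0, ?_⟩
  simp [hpp.out.ne_zero]

lemma PT.term (c : F) (k : ℕ) : PT p T (c ^ p * T ^ k) := by
  classical
  refine ⟨fun i => if i = k % p then c * T ^ (k / p) else 0, ?_⟩
  rw [Finset.sum_eq_single (k % p)]
  · beta_reduce
    rw [if_pos rfl, mul_pow, ← pow_mul, mul_assoc, ← pow_add]
    congr 2
    rw [mul_comm]
    exact (Nat.div_add_mod k p).symm
  · intro i _ hi
    beta_reduce
    rw [if_neg hi, zero_pow hpp.out.ne_zero, zero_mul]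
  · intro h
    exact absurd (Finset.mem_range.2 (Nat.mod_lt _ hpp.out.pos)) h

lemma PT.sum {ι : Type} (S : Finset ι) (f : ι → F) (h : ∀ i ∈ S, PT p T (f i)) :
    PT p T (∑ i ∈ S, f i) := by
  classical
  induction S using Finset.induction_on with
  | empty => simpa using PT.zero
  | insert i S hi ih =>
    rw [Finset.sum_insert hi]
    exact (h i (Finset.mem_insert_self _ _)).add (ih fun j hj => h j (Finset.mem_insert_of_mem hj))

lemma PT.mul {x y : F} (hx : PT p T x) (hy : PT p T y) : PT p T (x * y) := by
  obtain ⟨xs, rfl⟩ := hx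
  obtain ⟨ys, rfl⟩ := hy
  rw [Finset.sum_mul_sum]
  refine PT.sum _ _ fun i _ => PT.sum _ _ fun j _ => ?_
  have : xs i ^ p * T ^ i * (ys j ^ p * T ^ j) = (xs i * ys j) ^ p * T ^ (i + j) := by
    rw [mul_pow, pow_add]
    ring
  rw [this]
  exact PT.term _ _

lemma PT.pth (c : F) : PT p T (c ^ p) := by
  have := PT.term (p := p) (T := T) c 0
  rwa [pow_zero, mul_one] at this

lemma PT.one : PT p T (1 : F) := by
  have := PT.pth (p := p) (T := T) 1
  rwa [one_pow] at this

lemma PT.pow {x : F} (hx : PT p T x) (n : ℕ) : PT p T (x ^ n) := by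
  induction n with
  | zero => simpa using PT.one
  | succ n ih =>
    rw [pow_succ]
    exact ih.mul hx

lemma PT.inv {x : F} (hx : PT p T x) : PT p T x⁻¹ := by
  by_cases h0 : x = 0
  · rw [h0, inv_zero]
    exact PT.zero
  · have : x⁻¹ = (x⁻¹) ^ p * x ^ (p - 1) := by
      obtain ⟨r, hr⟩ : ∃ r, p = r + 1 := ⟨p - 1, (Nat.succ_pred_prime hpp.out).symm⟩
      rw [hr, Nat.add_sub_cancel, pow_succ, mul_comm ((x⁻¹) ^ r), mul_assoc, ← mul_pow,
        inv_mul_cancel₀ h0, one_pow, mul_one]
    rw [this]
    exact (PT.pth _).mul (hx.pow _)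

lemma PT.neg {x : F} (hx : PT p T x) : PT p T (-x) := by
  have h : PT p T (-1 : F) := by
    have := PT.pth (p := p) (T := T) (-1)
    rcases hpp.out.eq_two_or_odd' with h2 | h2
    · have h3 : (-1 : F) = 1 := by
        subst h2
        have : (2 : F) = 0 := by exact_mod_cast CharP.cast_eq_zero F 2
        linear_combination (-1 : F) * this
      rw [h3]
      exact PT.one
    · rwa [h2.neg_one_pow] at this
  have := h.mul hx
  rwa [neg_one_mul] at this

lemma D_pth (D : Derivation ℤ F F) (x : F) : D (x ^ p) = 0 := by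
  rw [Derivation.leibniz_pow, nsmul_eq_mul, CharP.cast_eq_zero, zero_mul]

end

lemma charP_of {Fq : Type} [Field Fq] [Fintype Fq] {p : ℕ} (hp : p.Prime)
    (h : p ∣ Fintype.card Fq) : CharP Fq p := by
  obtain ⟨p', hp'⟩ := CharP.exists Fq
  obtain ⟨n, hpp, hn⟩ := FiniteField.card Fq p'
  have : p = p' := by
    rw [hn] at h
    exact (Nat.prime_dvd_prime_iff_eq hp hpp).1 (hp.dvd_of_dvd_pow h)
  rw [this]
  exact hp'

theorem t_CAT : S_CAR → S_OFA → S_CAT := by
  intro hCAR hOFA Fq E F _ _ _ _ _ _ _ _ _ w θ p q d lm D hD hC hp hpq hQ hDd hDσ hDint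
  obtain ⟨hlm, -, -, -, hroot, -⟩ := hOFA Fq E F w θ p q d lm hD hC hp hpq hQ
  obtain ⟨cc, hcc0, hccd, -, hcact⟩ := hCAR Fq w q d hD.hq hD.irr hD.monic hD.deg
  have hcp : CharP Fq p := charP_of hp (by rw [← hD.hq]; exact hpq)
  have hfp : Fact p.Prime := ⟨hp⟩
  have hcF : CharP F p := (RingHom.charP_iff ((algebraMap Fq[X] F).comp C)
    ((algebraMap Fq[X] F).comp C).injective p).1 hcp
  set T : F := algebraMap Fq[X] F X with hT
  have hinj : Function.Injective (algebraMap Fq[X] F) := by
    rw [IsScalarTower.algebraMap_eq Fq[X] (RatFunc Fq) F]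
    exact (algebraMap (RatFunc Fq) F).injective.comp (RatFunc.algebraMap_injective Fq)
  obtain ⟨r, hr⟩ := hpq
  -- constants
  have hPc : ∀ c : Fq, PT p T (algebraMap Fq[X] F (C c)) := by
    intro c
    have : algebraMap Fq[X] F (C c) = (algebraMap Fq[X] F (C (c ^ r))) ^ p := by
      rw [← map_pow, ← C_pow, ← pow_mul, mul_comm r p, ← hr, hD.hq, FiniteField.pow_card]
    rw [this]
    exact PT.pth _
  have hPT : PT p T T := by
    have := PT.term (p := p) (T := T) 1 1
    rwa [one_pow, one_mul, pow_one] at this
  have hPpoly : ∀ a : Fq[X], PT p T (algebraMap Fq[X] F a) := by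
    intro a
    induction a using Polynomial.induction_on' with
    | add a b ha hb =>
      rw [map_add]
      exact ha.add hb
    | monomial n c =>
      rw [← C_mul_X_pow_eq_monomial, map_mul, map_pow]
      exact (hPc c).mul (hPT.pow n)
  have hPK : ∀ x : RatFunc Fq, PT p T (algebraMap (RatFunc Fq) F x) := by
    intro x
    obtain ⟨a, b, -, rfl⟩ := IsFractionRing.div_surjective (A := Fq[X]) x
    rw [map_div₀, ← IsScalarTower.algebraMap_apply, ← IsScalarTower.algebraMap_apply,
      div_eq_mul_inv]
    exact (hPpoly a).mul (hPpoly b).inv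
  have hw0 : algebraMap Fq[X] F w ≠ 0 := by
    intro h
    exact hD.irr.ne_zero (hinj (by rw [h, map_zero]))
  have hPlm : PT p T lm := by
    have h1 := hcact F lm
    rw [hC.tor, Finset.sum_range_succ', hcc0, pow_zero, pow_one] at h1
    have h2 : lm = -((algebraMap Fq[X] F w)⁻¹ *
        ∑ i ∈ range d, algebraMap Fq[X] F (cc (i + 1)) * lm ^ (q ^ (i + 1))) := by
      field_simp
      linear_combination -h1
    rw [h2]
    refine ((hPpoly w).inv.mul (PT.sum _ _ fun i _ => (hPpoly _).mul ?_)).neg
    have : lm ^ (q ^ (i + 1)) = (lm ^ (q ^ i * r)) ^ p := by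
      rw [← pow_mul, pow_succ, hr]
      congr 1
      ring
    rw [this]
    exact PT.pth _
  have hall : ∀ x : F, PT p T x := by
    intro x
    have hx : x ∈ IntermediateField.adjoin (RatFunc Fq) {lm} := by
      rw [hC.gen]
      exact IntermediateField.mem_top
    induction hx using IntermediateField.adjoin_induction with
    | mem x hx =>
      rw [Set.mem_singleton_iff.1 hx]
      exact hPlm
    | algebraMap x => exact hPK x
    | add x y _ _ hx hy => exact hx.add hy
    | inv x _ hx => exact hx.inv
    | mul x y _ _ hx hy => exact hx.mul hy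
  -- the derivation
  obtain ⟨hleib, hDc⟩ := hDd
  set δ : Derivation ℤ F F := Derivation.mk' D.toIntLinearMap (fun x y => by
    show D (x * y) = x • D y + y • D x
    rw [hleib]
    rfl) with hδ
  have hδD : ∀ x, δ x = D x := fun x => rfl
  have hDp : ∀ x y : F, D (x ^ p * y) = x ^ p * D y := by
    intro x y
    have h1 : D (x ^ p) = 0 := D_pth (p := p) δ x
    rw [hleib, h1, mul_zero, add_zero]
  have hDpj : ∀ (j : ℕ) (x y : F), D^[j] (x ^ p * y) = x ^ p * D^[j] y := by
    intro j
    induction j with
    | zero => intro x y; rfl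
    | succ j ih =>
      intro x y
      rw [Function.iterate_succ_apply', Function.iterate_succ_apply', ih, hDp]
  have hDsum : ∀ (j : ℕ) (S : Finset ℕ) (f : ℕ → F), D^[j] (∑ i ∈ S, f i) = ∑ i ∈ S, D^[j] (f i) := by
    intro j
    induction j with
    | zero => intro S f; rfl
    | succ j ih =>
      intro S f
      rw [Function.iterate_succ_apply', ih, map_sum]
      apply Finset.sum_congr rfl
      intro i _
      rw [Function.iterate_succ_apply']
  have hDcj : ∀ (j : ℕ) (c : Fq[X]), D^[j] (algebraMap Fq[X] F c) =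
      algebraMap Fq[X] F (derivative^[j] c) := by
    intro j
    induction j with
    | zero => intro c; rfl
    | succ j ih =>
      intro c
      rw [Function.iterate_succ_apply', ih, hDc, Function.iterate_succ_apply']
  have hDT : ∀ i j : ℕ, D^[j] (T ^ i) = (Nat.descFactorial i j : F) * T ^ (i - j) := by
    intro i j
    rw [hT, ← map_pow, hDcj, Polynomial.iterate_derivative_X_pow_eq_natCast_mul, map_mul,
      map_natCast, map_pow]
  have hDj : ∀ (m j : ℕ) (xs : ℕ → F), m ≤ j →
      D^[j] (∑ i ∈ range m, xs i ^ p * T ^ i) = 0 := by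
    intro m j xs hmj
    rw [hDsum]
    apply Finset.sum_eq_zero
    intro i hi
    rw [Finset.mem_range] at hi
    rw [hDpj, hDT, Nat.descFactorial_of_lt (by omega)]
    simp
  have hDj' : ∀ (m : ℕ) (xs : ℕ → F),
      D^[m] (∑ i ∈ range (m + 1), xs i ^ p * T ^ i) = xs m ^ p * (m.factorial : F) := by
    intro m xs
    have h0 : D^[m] (∑ i ∈ range (m + 1), xs i ^ p * T ^ i) =
        ∑ i ∈ range (m + 1), D^[m] (xs i ^ p * T ^ i) := hDsum _ _ _
    rw [h0, Finset.sum_range_succ, Finset.sum_eq_zero, zero_add, hDpj, hDT,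
      Nat.descFactorial_self, Nat.sub_self, pow_zero, mul_one]
    intro i hi
    rw [Finset.mem_range] at hi
    rw [hDpj, hDT, Nat.descFactorial_of_lt hi]
    simp
  have hp1 : p - 1 + 1 = p := Nat.sub_add_cancel hp.one_le
  have hwil : (((p - 1).factorial : ℕ) : F) = -1 := by
    have h1 := ZMod.wilsons_lemma p
    have h2 := congrArg (ZMod.castHom (dvd_refl p) F) h1
    rw [map_natCast, map_neg, map_one] at h2
    exact h2
  have hDp1 : ∀ xs : ℕ → F, D^[p - 1] (∑ i ∈ range p, xs i ^ p * T ^ i) = - xs (p - 1) ^ p := by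
    intro xs
    have := hDj' (p - 1) xs
    rw [hp1, hwil] at this
    rw [this]
    ring
  have hpinj : ∀ x y : F, x ^ p = y ^ p → x = y := by
    intro x y h
    exact frobenius_inj F p h
  have hDpz : ∀ x, D^[p] x = 0 := by
    intro x
    obtain ⟨xs, rfl⟩ := hall x
    exact hDj p p xs le_rfl
  refine ⟨hDpz, ?_, ?_⟩
  · intro x hx
    have key : ∀ m, m ≤ p → ∀ xs : ℕ → F, D (∑ i ∈ range m, xs i ^ p * T ^ i) = 0 →
        ∃ y, ∑ i ∈ range m, xs i ^ p * T ^ i = y ^ p := by
      intro m
      induction m with
      | zero =>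
        intro _ xs _
        exact ⟨0, by simp [hp.ne_zero]⟩
      | succ m ih =>
        intro hm xs h
        by_cases hm0 : m = 0
        · subst hm0
          exact ⟨xs 0, by simp⟩
        · have h1 : D^[m] (∑ i ∈ range (m + 1), xs i ^ p * T ^ i) = 0 := by
            obtain ⟨m', rfl⟩ : ∃ m', m = m' + 1 := ⟨m - 1, by omega⟩
            rw [Function.iterate_succ_apply, h]
            have : ∀ j : ℕ, D^[j] (0 : F) = 0 := by
              intro j
              induction j with
              | zero => rfl
              | succ j ih => rw [Function.iterate_succ_apply', ih, map_zero]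
            exact this m'
          rw [hDj' m xs] at h1
          have h2 : ((m.factorial : ℕ) : F) ≠ 0 := by
            rw [Ne, CharP.cast_eq_zero_iff F p, hp.dvd_factorial]
            omega
          have h3 : xs m ^ p = 0 := (mul_eq_zero.1 h1).resolve_right h2
          rw [Finset.sum_range_succ, h3, zero_mul, add_zero] at h ⊢
          exact ih (by omega) xs h
    obtain ⟨xs, rfl⟩ := hall x
    exact key p le_rfl xs hx
  · have hex : ∀ x : F, ∃ y : F, y ^ p = - D^[p - 1] x := by
      intro x
      obtain ⟨xs, rfl⟩ := hall x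
      exact ⟨xs (p - 1), by rw [hDp1, neg_neg]⟩
    choose c hc using hex
    have hDadd : ∀ (j : ℕ) (x y : F), D^[j] (x + y) = D^[j] x + D^[j] y := by
      intro j
      induction j with
      | zero => intro x y; rfl
      | succ j ih =>
        intro x y
        rw [Function.iterate_succ_apply', Function.iterate_succ_apply',
          Function.iterate_succ_apply', ih, map_add]
    set Cr : F →+ F := AddMonoidHom.mk' c (fun x y => by
      apply hpinj
      rw [add_pow_char, hc, hc, hc, hDadd]
      ring) with hCr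
    have hCrc : ∀ x, Cr x ^ p = - D^[p - 1] x := fun x => hc x
    refine ⟨Cr, ⟨?_, ?_, ?_⟩, hCrc, ?_, ?_⟩
    · intro x y
      apply hpinj
      rw [mul_pow, hCrc, hCrc, hDpj]
      ring
    · intro i hi
      apply hpinj
      rw [hCrc, hDT, Nat.descFactorial_of_lt (by omega), zero_pow hp.ne_zero]
      simp
    · apply hpinj
      rw [hCrc, hDT, Nat.descFactorial_self, hwil]
      simp
    · intro σ x
      apply hpinj
      rw [hCrc, ← map_pow, hCrc, map_neg]
      congr 1
      have : ∀ j : ℕ, D^[j] (σ x) = σ (D^[j] x) := by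
        intro j
        induction j with
        | zero => rfl
        | succ j ih => rw [Function.iterate_succ_apply', Function.iterate_succ_apply', ih, hDσ]
      exact this _
    · intro x hx
      set M := q ^ d - 2 with hM
      have hstep : ∀ j : ℕ, IsIntegral Fq[X] (lm ^ (M + j * (M + 1)) * D^[j] x) := by
        intro j
        induction j with
        | zero => simpa using hx
        | succ j ih =>
          set e := M + j * (M + 1) with he
          have h1 := hDint _ ih
          have h2 : D (lm ^ e * D^[j] x) = lm ^ e * D (D^[j] x) +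
              D^[j] x * ((e : F) * lm ^ (e - 1) * D lm) := by
            rw [hleib]
            have : D (lm ^ e) = (e : F) * lm ^ (e - 1) * D lm := by
              have := Derivation.leibniz_pow δ lm e
              rw [hδD, hδD] at this
              rw [this, nsmul_eq_mul, smul_eq_mul]
              ring
            rw [this]
          rw [h2] at h1
          have h3 : lm ^ (M + (j + 1) * (M + 1)) * D^[j + 1] x =
              lm * (lm ^ M * (lm ^ e * D (D^[j] x) + D^[j] x * ((e : F) * lm ^ (e - 1) * D lm))) -
              (e : F) * (lm ^ e * D^[j] x) * (lm ^ M * D lm) := by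
            rw [Function.iterate_succ_apply']
            have h4 : M + (j + 1) * (M + 1) = e + M + 1 := by
              rw [he]
              ring
            rw [h4, pow_succ, pow_add]
            rcases Nat.eq_zero_or_pos e with h5 | h5
            · rw [h5]
              simp
              ring
            · have h6 : lm ^ e = lm ^ (e - 1) * lm := by
                rw [← pow_succ]
                congr 1
                omega
              rw [h6]
              ring
          rw [h3]
          refine IsIntegral.sub (hlm.mul h1) (IsIntegral.mul (IsIntegral.mul ?_ ih) (hDint lm hlm))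
          exact isIntegral_algebraMap (R := Fq[X]) (A := F) (x := (e : Fq[X])) |> fun h => by
            rwa [map_natCast] at h
      apply hroot
      have h1 := (hstep (p - 1)).neg
      have h2 : lm ^ (p - 1) * (lm ^ M * Cr x) ^ p =
          -(lm ^ (M + (p - 1) * (M + 1)) * D^[p - 1] x) := by
        rw [mul_pow, hCrc]
        have h3 : M + (p - 1) * (M + 1) = (p - 1) + M * p := by
          obtain ⟨p', hp'⟩ : ∃ p', p = p' + 1 := ⟨p - 1, hp1.symm⟩
          rw [hp', Nat.add_sub_cancel]
          ring
        rw [h3, pow_add, pow_mul]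
        ring
      rw [h2]
      exact h1

end Run7.h11.GK
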