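import Pool.Agent.Run7.h400.GK.StmK

set_option autoImplicit false

namespace Run7.h11.GK

open Polynomial Finset
open Run7.h400.GK

section
variable {Fq E : Type} [Field Fq] [Field E] [Algebra Fq E] {θ : E}

/-- `x` is defined at `θ` with value `e` -/
def Red (θ : E) (x : RatFunc Fq) (e : E) : Prop :=
  ∃ a b : Fq[X], aeval θ b ≠ 0 ∧ x * algebraMap Fq[X] (RatFunc Fq) b =
    algebraMap Fq[X] (RatFunc Fq) a ∧ e * aeval θ b = aeval θ a

lemma Red.poly (a : Fq[X]) : Red θ (algebraMap Fq[X] (RatFunc Fq) a) (aeval θ a) :=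
  ⟨a, 1, by simp, by simp, by simp⟩

lemma Red.zero : Red (Fq := Fq) θ 0 0 := ⟨0, 1, by simp, by simp, by simp⟩

lemma Red.one : Red (Fq := Fq) θ 1 1 := ⟨1, 1, by simp, by simp, by simp⟩

lemma Red.add {x y : RatFunc Fq} {e f : E} (hx : Red θ x e) (hy : Red θ y f) :
    Red θ (x + y) (e + f) := by
  obtain ⟨a, b, h1, h2, h3⟩ := hx
  obtain ⟨a', b', h1', h2', h3'⟩ := hy
  refine ⟨a * b' + a' * b, b * b', ?_, ?_, ?_⟩
  · rw [map_mul]
    exact mul_ne_zero h1 h1'
  · rw [map_mul, map_add, map_mul, map_mul, ← h2, ← h2']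
    ring
  · rw [map_mul, map_add, map_mul, map_mul, ← h3, ← h3']
    ring

lemma Red.mul {x y : RatFunc Fq} {e f : E} (hx : Red θ x e) (hy : Red θ y f) :
    Red θ (x * y) (e * f) := by
  obtain ⟨a, b, h1, h2, h3⟩ := hx
  obtain ⟨a', b', h1', h2', h3'⟩ := hy
  refine ⟨a * a', b * b', ?_, ?_, ?_⟩
  · rw [map_mul]
    exact mul_ne_zero h1 h1'
  · rw [map_mul, map_mul, ← h2, ← h2']
    ring
  · rw [map_mul, map_mul, ← h3, ← h3']
    ring

lemma Red.neg {x : RatFunc Fq} {e : E} (hx : Red θ x e) : Red θ (-x) (-e) := by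
  obtain ⟨a, b, h1, h2, h3⟩ := hx
  refine ⟨-a, b, h1, ?_, ?_⟩
  · rw [map_neg, ← h2]
    ring
  · rw [map_neg, ← h3]
    ring

lemma Red.sub {x y : RatFunc Fq} {e f : E} (hx : Red θ x e) (hy : Red θ y f) :
    Red θ (x - y) (e - f) := by
  rw [sub_eq_add_neg, sub_eq_add_neg]
  exact hx.add hy.neg

lemma Red.inv {x : RatFunc Fq} {e : E} (hx : Red θ x e) (he : e ≠ 0) : Red θ x⁻¹ e⁻¹ := by
  obtain ⟨a, b, h1, h2, h3⟩ := hx
  have ha : aeval θ a ≠ 0 := by
    rw [← h3]
    exact mul_ne_zero he h1
  have ha0 : algebraMap Fq[X] (RatFunc Fq) a ≠ 0 := by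
    intro h
    apply ha
    have : a = 0 := (RatFunc.algebraMap_injective Fq) (by rw [h, map_zero])
    rw [this, map_zero]
  have hx0 : x ≠ 0 := by
    rintro rfl
    apply ha0
    rw [← h2, zero_mul]
  refine ⟨b, a, ha, ?_, ?_⟩
  · rw [← h2]
    field_simp
  · rw [← h3]
    field_simp

lemma Red.unique {x : RatFunc Fq} {e f : E} (hx : Red θ x e) (hy : Red θ x f) : e = f := by
  obtain ⟨a, b, h1, h2, h3⟩ := hx
  obtain ⟨a', b', h1', h2', h3'⟩ := hy
  have h : a * b' = a' * b := by
    apply RatFunc.algebraMap_injective Fq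
    rw [map_mul, map_mul, ← h2, ← h2']
    ring
  have h4 := congrArg (aeval θ) h
  rw [map_mul, map_mul, ← h3, ← h3'] at h4
  have h5 : aeval θ b * aeval θ b' ≠ 0 := mul_ne_zero h1 h1'
  apply mul_right_cancel₀ h5
  linear_combination h4

lemma Red.sum {ι : Type} (s : Finset ι) (x : ι → RatFunc Fq) (e : ι → E)
    (h : ∀ i ∈ s, Red θ (x i) (e i)) : Red θ (∑ i ∈ s, x i) (∑ i ∈ s, e i) := by
  classical
  induction s using Finset.induction_on with
  | empty => simpa using Red.zero
  | insert i s hi ih =>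
    rw [Finset.sum_insert hi, Finset.sum_insert hi]
    exact (h i (Finset.mem_insert_self _ _)).add (ih fun j hj => h j (Finset.mem_insert_of_mem hj))

lemma Red.prod {ι : Type} (s : Finset ι) (x : ι → RatFunc Fq) (e : ι → E)
    (h : ∀ i ∈ s, Red θ (x i) (e i)) : Red θ (∏ i ∈ s, x i) (∏ i ∈ s, e i) := by
  classical
  induction s using Finset.induction_on with
  | empty => simpa using Red.one
  | insert i s hi ih =>
    rw [Finset.prod_insert hi, Finset.prod_insert hi]
    exact (h i (Finset.mem_insert_self _ _)).mul (ih fun j hj => h j (Finset.mem_insert_of_mem hj))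

lemma Red.pow {x : RatFunc Fq} {e : E} (hx : Red θ x e) (n : ℕ) : Red θ (x ^ n) (e ^ n) := by
  induction n with
  | zero => simpa using Red.one
  | succ n ih =>
    rw [pow_succ, pow_succ]
    exact ih.mul hx

lemma Red.X : Red (Fq := Fq) θ RatFunc.X θ := by
  have := Red.poly (θ := θ) (Polynomial.X : Fq[X])
  rwa [RatFunc.algebraMap_X, aeval_X] at this

lemma Red.Dm (q m : ℕ) : Red (Fq := Fq) θ (Dm q RatFunc.X m) (Dm q θ m) := by
  unfold Run7.h400.GK.Dm
  exact Red.prod _ _ _ fun j _ => (Red.X.pow _).sub (Red.X.pow _)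

lemma Red.series_inv (f : PowerSeries (RatFunc Fq)) (g : PowerSeries E) (k : ℕ)
    (hg0 : PowerSeries.constantCoeff g ≠ 0)
    (h : ∀ j ≤ k, Red θ (PowerSeries.coeff j f) (PowerSeries.coeff j g)) :
    ∀ j ≤ k, Red θ (PowerSeries.coeff j f⁻¹) (PowerSeries.coeff j g⁻¹) := by
  have h0 : Red θ (PowerSeries.constantCoeff f)⁻¹ (PowerSeries.constantCoeff g)⁻¹ := by
    have := h 0 (Nat.zero_le _)
    rw [PowerSeries.coeff_zero_eq_constantCoeff, PowerSeries.coeff_zero_eq_constantCoeff] at this
    exact this.inv hg0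
  intro j
  induction j using Nat.strong_induction_on with
  | _ j ih =>
    intro hj
    rw [PowerSeries.coeff_inv, PowerSeries.coeff_inv]
    by_cases hj0 : j = 0
    · rw [if_pos hj0, if_pos hj0]
      exact h0
    · rw [if_neg hj0, if_neg hj0]
      refine h0.neg.mul (Red.sum _ _ _ fun x hx => ?_)
      have hx := HasAntidiagonal.mem_antidiagonal.1 hx
      by_cases hxj : x.2 < j
      · rw [if_pos hxj, if_pos hxj]
        exact (h x.1 (by omega)).mul (ih x.2 hxj (by omega))
      · rw [if_neg hxj, if_neg hxj]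
        exact Red.zero

end

theorem t_BER : S_FRB → S_BER := by
  intro hF Fq E _ _ _ _ _ w θ q d k hD hk0 hk hdvd
  obtain ⟨-, hinj, -, -, -, -⟩ := hF Fq E w θ q d hD
  have hq2 : 2 ≤ q := by
    rw [hD.hq]
    exact Fintype.one_lt_card
  have hDm : ∀ m < d, Dm q θ m ≠ 0 := by
    intro m hm
    unfold Dm
    rw [Finset.prod_ne_zero_iff]
    intro j hj h
    have hj' := Finset.mem_range.1 hj
    have := hinj m hm j (by omega) (sub_eq_zero.1 h)
    omega
  -- the two series
  set f : PowerSeries (RatFunc Fq) := PowerSeries.mk fun j => ∑ m ∈ range (j + 1),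
      if q ^ m = j + 1 then (Dm q (RatFunc.X : RatFunc Fq) m)⁻¹ else 0 with hf
  have hcoeff : ∀ j ≤ k, Red θ (PowerSeries.coeff j f) (PowerSeries.coeff j (ez q d θ)) := by
    intro j hj
    have e1 : PowerSeries.coeff j (ez q d θ) =
        ∑ m ∈ range (j + 1), if q ^ m = j + 1 then (Dm q θ m)⁻¹ else 0 := by
      unfold ez
      rw [map_sum]
      simp only [PowerSeries.coeff_monomial]
      have hpos : ∀ m, 1 ≤ q ^ m := fun m => Nat.one_le_pow _ _ (by omega)
      have e2 : ∀ m, (if j = q ^ m - 1 then (Dm q θ m)⁻¹ else 0) =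
          (if q ^ m = j + 1 then (Dm q θ m)⁻¹ else 0) := by
        intro m
        have := hpos m
        have hiff : (j = q ^ m - 1) ↔ (q ^ m = j + 1) := by omega
        simp only [hiff]
      rw [Finset.sum_congr rfl fun m _ => e2 m]
      have hlt : ∀ m, q ^ m = j + 1 → m < d ∧ m < j + 1 := by
        intro m hm
        constructor
        · by_contra hcon
          have : q ^ d ≤ q ^ m := Nat.pow_le_pow_right (by omega) (by omega)
          omega
        · rw [← hm]
          exact Nat.lt_pow_self (by omega)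
      have e3 : ∑ m ∈ range d, (if q ^ m = j + 1 then (Dm q θ m)⁻¹ else 0) =
          ∑ m ∈ range (max d (j + 1)), (if q ^ m = j + 1 then (Dm q θ m)⁻¹ else 0) := by
        apply Finset.sum_subset
        · intro m hm
          rw [Finset.mem_range] at *
          exact lt_max_of_lt_left hm
        · intro m _ hm
          rw [if_neg]
          intro h
          exact hm (Finset.mem_range.2 (hlt m h).1)
      have e4 : ∑ m ∈ range (j + 1), (if q ^ m = j + 1 then (Dm q θ m)⁻¹ else 0) =
          ∑ m ∈ range (max d (j + 1)), (if q ^ m = j + 1 then (Dm q θ m)⁻¹ else 0) := by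
        apply Finset.sum_subset
        · intro m hm
          rw [Finset.mem_range] at *
          exact lt_max_of_lt_right hm
        · intro m _ hm
          rw [if_neg]
          intro h
          exact hm (Finset.mem_range.2 (hlt m h).2)
      rw [e3, e4]
    rw [e1, hf, PowerSeries.coeff_mk]
    refine Red.sum _ _ _ fun m _ => ?_
    by_cases h : q ^ m = j + 1
    · rw [if_pos h, if_pos h]
      refine (Red.Dm q m).inv (hDm m ?_)
      by_contra hcon
      have : q ^ d ≤ q ^ m := Nat.pow_le_pow_right (by omega) (by omega)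
      omega
    · rw [if_neg h, if_neg h]
      exact Red.zero
  have hg0 : PowerSeries.constantCoeff (ez q d θ) ≠ 0 := by
    rw [← PowerSeries.coeff_zero_eq_constantCoeff_apply]
    unfold ez
    rw [map_sum]
    simp only [PowerSeries.coeff_monomial]
    rw [Finset.sum_eq_single 0]
    · simp [Dm]
    · intro m _ hm
      rw [if_neg]
      have : 2 ≤ q ^ m := le_trans hq2 (Nat.le_self_pow hm q)
      omega
    · intro h
      exact absurd (Finset.mem_range.2 (by have := hD.hd1; omega)) h
  have hinv := Red.series_inv f (ez q d θ) k hg0 hcoeff k le_rfl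
  have hdg : ∀ i, k < q ^ i → dg q k i = 0 := by
    intro i hi
    unfold dg
    rw [Nat.div_eq_of_lt hi, Nat.zero_mod]
  have hprodE : ∏ i ∈ range (k + 1), Dm q θ i ^ dg q k i = ∏ i ∈ range d, Dm q θ i ^ dg q k i := by
    have e3 : ∏ i ∈ range d, Dm q θ i ^ dg q k i =
        ∏ i ∈ range (max d (k + 1)), Dm q θ i ^ dg q k i := by
      apply Finset.prod_subset
      · intro m hm
        rw [Finset.mem_range] at *
        exact lt_max_of_lt_left hm
      · intro m _ hm
        rw [Finset.mem_range, not_lt] at hm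
        have : q ^ d ≤ q ^ m := Nat.pow_le_pow_right (by omega) hm
        rw [hdg m (by omega), pow_zero]
    have e4 : ∏ i ∈ range (k + 1), Dm q θ i ^ dg q k i =
        ∏ i ∈ range (max d (k + 1)), Dm q θ i ^ dg q k i := by
      apply Finset.prod_subset
      · intro m hm
        rw [Finset.mem_range] at *
        exact lt_max_of_lt_right hm
      · intro m _ hm
        rw [Finset.mem_range, not_lt] at hm
        have : m < q ^ m := Nat.lt_pow_self (by omega)
        rw [hdg m (by omega), pow_zero]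
    rw [e3, e4]
  have hBC : Red θ (BC Fq q k)
      ((∏ i ∈ range (k + 1), Dm q θ i ^ dg q k i) * PowerSeries.coeff k (ez q d θ)⁻¹) := by
    unfold BC
    exact (Red.prod _ _ _ fun i _ => (Red.Dm q i).pow _).mul hinv
  obtain ⟨a, b, hb, hab⟩ := hdvd
  have hb0 : aeval θ b ≠ 0 := by
    intro h
    apply hb
    have hmin := minpoly.eq_of_irreducible_of_monic hD.irr hD.root hD.monic
    rw [hmin]
    exact minpoly.dvd Fq θ h
  have h1 := hBC.mul (Red.poly (θ := θ) b)
  rw [hab] at h1
  have h2 := Red.poly (θ := θ) (w * a)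
  have h3 := h1.unique h2
  rw [map_mul, hD.root, zero_mul] at h3
  rcases mul_eq_zero.1 h3 with h | h
  · rw [← hprodE, mul_comm]
    exact h
  · exact absurd h hb0

end Run7.h11.GK
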