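import Pool.Agent.Run7.h400.GK.StmK
import Pool.Agent.Run7.h400.GK.StmC

set_option autoImplicit false

namespace Run7.h11.GK

open Polynomial Finset
open Run7.h400.GK

lemma mp_monic {Fq : Type} [Field Fq] {j : ℕ} (c : Fin j → Fq) : (mp c).Monic := by
  unfold mp
  exact monic_X_pow_add (degree_sum_fin_lt c)

lemma sb_coeff {E : Type} [Field E] (q : ℕ) (h h' : PowerSeries E) (i : ℤ)
    (H : ∀ m : ℕ, (m : ℤ) ≤ i → PowerSeries.coeff m h = PowerSeries.coeff m h') :
    (sb q h).coeff i = (sb q h').coeff i := by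
  unfold sb
  rcases lt_or_ge i 0 with hi | hi
  · have hr : ∀ x : PowerSeries E, (HahnSeries.ofPowerSeries ℤ E x).coeff i = 0 := by
      intro x
      rw [HahnSeries.ofPowerSeries_apply]
      apply HahnSeries.embDomain_of_notMem_range
      rintro ⟨m, hm⟩
      have : (m : ℤ) = i := hm
      omega
    rw [hr, hr]
  · obtain ⟨m, rfl⟩ := Int.eq_ofNat_of_zero_le hi
    have e1 := HahnSeries.ofPowerSeries_apply_coeff (Γ := ℤ) (PowerSeries.mk fun m =>
      if (q - 1) ∣ m then (-1) ^ (m / (q - 1)) * PowerSeries.coeff (m / (q - 1)) h else 0) m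
    have e2 := HahnSeries.ofPowerSeries_apply_coeff (Γ := ℤ) (PowerSeries.mk fun m =>
      if (q - 1) ∣ m then (-1) ^ (m / (q - 1)) * PowerSeries.coeff (m / (q - 1)) h' else 0) m
    rw [PowerSeries.coeff_mk] at e1 e2
    have e3 : PowerSeries.coeff (m / (q - 1)) h = PowerSeries.coeff (m / (q - 1)) h' := by
      apply H
      exact_mod_cast Nat.div_le_self _ _
    rw [e3] at e1
    exact e1.trans e2.symm

/-- the reversed polynomial times a power series computes `κ` -/
lemma kap_coeff {E : Type} [Field E] (n m : ℕ) (hn : 1 ≤ n) (h : PowerSeries E) (F : E[X])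
    (hF : ∀ i, n ≤ i → F.coeff i = 0) :
    kap n h (X ^ m * F) = PowerSeries.coeff m ((∑ j ∈ range n,
      PowerSeries.C (F.coeff j) * PowerSeries.X ^ (n - 1 - j)) * h) := by
  have hdeg : F.natDegree < n := by
    by_cases h0 : F = 0
    · rw [h0, natDegree_zero]
      omega
    · exact (natDegree_lt_iff_degree_lt h0).2 ((degree_lt_iff_coeff_zero F n).2 hF)
  have hdeg2 : (X ^ m * F).natDegree < m + n := by
    refine lt_of_le_of_lt natDegree_mul_le ?_
    rw [natDegree_X_pow]
    omega
  unfold kap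
  rw [sum_over_range' _ _ (m + n) hdeg2, Finset.sum_range_add]
  · rw [Finset.sum_eq_zero, zero_add, Finset.sum_mul, map_sum]
    · apply Finset.sum_congr rfl
      intro i hi
      rw [Finset.mem_range] at hi
      have e1 : (X ^ m * F).coeff (m + i) = F.coeff i := by
        rw [Polynomial.coeff_X_pow_mul', if_pos (Nat.le_add_right m i), Nat.add_sub_cancel_left]
      rw [e1, mul_assoc, PowerSeries.coeff_C_mul, PowerSeries.coeff_X_pow_mul']
      by_cases hc : n ≤ m + i + 1
      · have hc' : n - 1 - i ≤ m := by omega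
        rw [if_pos hc, if_pos hc']
        have e2 : m + i + 1 - n = m - (n - 1 - i) := by omega
        rw [e2]
      · have hc' : ¬ (n - 1 - i ≤ m) := by omega
        rw [if_neg hc, if_neg hc', mul_zero]
    · intro i hi
      rw [Finset.mem_range] at hi
      have e1 : (X ^ m * F).coeff i = 0 := by
        rw [Polynomial.coeff_X_pow_mul', if_neg (by omega)]
      rw [e1]
      simp
  · intro i
    simp

lemma prod_map_sum {ι A B : Type} [CommMonoid B] (S : Finset ι) (m : ι → Multiset A) (g : A → B) :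
    ((∑ i ∈ S, m i).map g).prod = ∏ i ∈ S, ((m i).map g).prod := by
  classical
  induction S using Finset.induction_on with
  | empty => simp
  | insert i S hi ih =>
    rw [Finset.sum_insert hi, Finset.prod_insert hi, Multiset.map_add, Multiset.prod_add, ih]

theorem t_STR : S_GMF → S_HTH → S_SBR → S_EXP → S_FRB → S_DIG → S_WTK → S_INF → S_STR := by
  intro hGMF hHTH hSBR hEXP hFRB hDIG hWTK hINF Fq E _ _ _ _ _ w θ q d k hD hk0 hk hqk
  have hq2 : 2 ≤ q := by
    rw [hD.hq]
    exact Fintype.one_lt_card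
  obtain ⟨-, -, hsum, hn1, -, hE'⟩ := hDIG q d k hq2 hD.hd1 hk0 hk hqk
  obtain ⟨hcard, hPP⟩ := hE' E θ
  obtain ⟨-, -, -, hδ, -, -⟩ := hFRB Fq E w θ q d hD
  obtain ⟨f, hf, hfX, hfC, hfinj, -⟩ := hSBR E q hq2
  set s := msk q d k θ with hs
  set n := nk q d k with hn
  set h : PowerSeries E := (s.map fun t => Hth q t).prod with hh
  have hFEq : FEq q (n * (q - 1)) ((s.map fun t => X - C t).prod) h := by
    have := hHTH E q s hq2
    rwa [hcard] at this
  obtain ⟨g1, g2, -⟩ := hGMF Fq E q n s h hD.hq hn1 hcard hFEq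
  rw [← hPP] at g1 g2
  set F := fst q n (PP q d k θ) with hFdef
  set T := TT E q with hT
  have hT0 : T ≠ 0 := by
    rw [hT]
    unfold TT
    exact HahnSeries.single_ne_zero (neg_ne_zero.2 one_ne_zero)
  set Frev : PowerSeries E := ∑ j ∈ range n,
      PowerSeries.C (F.coeff j) * PowerSeries.X ^ (n - 1 - j) with hFrev
  -- `Γ = sb (X * G)`
  have hΓ : Gam q d k θ T (gk q w θ) = sb q (-(PowerSeries.X * (Frev * h))) := by
    apply HahnSeries.ext
    funext i
    obtain ⟨J₀, hJ₀⟩ := hINF Fq E w θ q d k hD hk0 hk hqk (i + 1)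
    set J := max J₀ (2 * n + i.toNat + 1) with hJ
    have h1 := hJ₀ J (le_max_left _ _) i (by omega)
    have e1 : ∑ j ∈ range J, ∑ c : Fin j → Fq,
        algebraMap E (LaurentSeries E) (aeval θ (mp c) ^ (q ^ d - 1 - k)) *
        (aeval (TT E q) (derivative (mp c)) / aeval (TT E q) (mp c)) =
        sb q (∑ j ∈ range J, ∑ c : Fin j → Fq,
          PowerSeries.C (aeval θ (mp c) ^ (q ^ d - 1 - k)) *
            (PowerSeries.X * PowerSeries.mk fun m => algebraMap Fq E (ps m (mp c)))) := by
      rw [← hf, map_sum]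
      apply Finset.sum_congr rfl
      intro j _
      rw [map_sum]
      apply Finset.sum_congr rfl
      intro c _
      rw [map_mul, hfC, hf, hEXP Fq E q (mp c) hq2 (mp_monic c)]
    rw [e1] at h1
    have h2 : (Gam q d k θ T (gk q w θ)).coeff i = (sb q (∑ j ∈ range J, ∑ c : Fin j → Fq,
          PowerSeries.C (aeval θ (mp c) ^ (q ^ d - 1 - k)) *
            (PowerSeries.X * PowerSeries.mk fun m => algebraMap Fq E (ps m (mp c))))).coeff i := by
      rw [HahnSeries.coeff_sub] at h1
      exact sub_eq_zero.1 h1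
    rw [h2]
    apply sb_coeff
    intro m hm
    rcases m with _ | m
    · simp [map_sum]
    · have h3 := g1 m J (by
        refine le_trans ?_ (le_max_right J₀ (2 * n + i.toNat + 1))
        have : ((m : ℤ) + 1) ≤ i := by exact_mod_cast hm
        omega)
      rw [kap_coeff n m hn1 h F g2] at h3
      rw [map_neg, PowerSeries.coeff_succ_X_mul, ← h3, map_sum]
      apply Finset.sum_congr rfl
      intro j _
      rw [map_sum]
      apply Finset.sum_congr rfl
      intro c _
      rw [PowerSeries.coeff_C_mul, PowerSeries.coeff_succ_X_mul, PowerSeries.coeff_mk,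
        hWTK Fq E w θ q d k hD hk0 hk hqk (mp c)]
  have hdeg : F.natDegree < n := by
    by_cases h0 : F = 0
    · rw [h0, natDegree_zero]
      omega
    · exact (natDegree_lt_iff_degree_lt h0).2 ((degree_lt_iff_coeff_zero F n).2 g2)
  have hFT : T⁻¹ * f Frev = (T⁻¹) ^ n * aeval T F := by
    rw [aeval_eq_sum_range' hdeg, hFrev, map_sum, Finset.mul_sum, Finset.mul_sum]
    apply Finset.sum_congr rfl
    intro j hj
    rw [Finset.mem_range] at hj
    rw [map_mul, hfC, map_pow, hfX, Algebra.smul_def]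
    have e1 : (T⁻¹) ^ n = T⁻¹ * (T⁻¹) ^ (n - 1 - j) * (T⁻¹) ^ j := by
      rw [← pow_succ', ← pow_add]
      congr 1
      omega
    have e2 : (T⁻¹) ^ j * T ^ j = 1 := by
      rw [← mul_pow, inv_mul_cancel₀ hT0, one_pow]
    rw [e1]
    linear_combination (-(T⁻¹ * (T⁻¹) ^ (n - 1 - j)) * algebraMap E (LaurentSeries E) (F.coeff j)) * e2
  -- the product
  set π1 : LaurentSeries E := HahnSeries.single (-1 : ℤ) (1 : E) with hπ1
  have hC0 : ∀ e : E, algebraMap E (LaurentSeries E) e = HahnSeries.single (0 : ℤ) e := by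
      intro e
      rw [← hfC, hf]
      unfold sb
      apply HahnSeries.ext
      funext i
      rcases lt_or_ge i 0 with hi | hi
      · rw [HahnSeries.ofPowerSeries_apply, HahnSeries.embDomain_of_notMem_range,
          HahnSeries.coeff_single_of_ne hi.ne]
        rintro ⟨m, hm⟩
        have : (m : ℤ) = i := hm
        omega
      · obtain ⟨m, rfl⟩ := Int.eq_ofNat_of_zero_le hi
        refine (HahnSeries.ofPowerSeries_apply_coeff (Γ := ℤ) _ m).trans ?_
        rw [PowerSeries.coeff_mk]
        by_cases hm : m = 0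
        · subst hm
          simp
        · rw [HahnSeries.coeff_single_of_ne (by exact_mod_cast hm)]
          by_cases hdv : (q - 1) ∣ m
          · rw [if_pos hdv, PowerSeries.coeff_C, if_neg, mul_zero]
            obtain ⟨r, rfl⟩ := hdv
            rw [Nat.mul_div_cancel_left _ (by omega)]
            rintro rfl
            simp at hm
          · rw [if_neg hdv]
  have hsingle : ∀ e : E, HahnSeries.single (-1 : ℤ) e = algebraMap E (LaurentSeries E) e * π1 := by
    intro e
    rw [hπ1, hC0, HahnSeries.single_mul_single, zero_add, mul_one]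
  have hHne : ∀ t : E, sb q (Hth q t) ≠ 0 := by
    intro t h0
    rw [← hf] at h0
    have : Hth q t = 0 := hfinj (by rw [h0, map_zero])
    have h1 := congrArg (PowerSeries.coeff 0) this
    simp [Hth] at h1
  have hgk0 : ∀ i, gk q w θ i ≠ 0 := by
    intro i
    unfold gk gg
    refine mul_ne_zero ?_ (inv_ne_zero (hHne _))
    exact HahnSeries.single_ne_zero (neg_ne_zero.2 (inv_ne_zero (hδ i)))
  have hsb : ∀ i, sb q (Hth q (θ ^ (q ^ i))) =
      algebraMap E (LaurentSeries E) (-(aeval (θ ^ (q ^ i)) (derivative w))⁻¹) * π1 *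
        (gk q w θ i)⁻¹ := by
    intro i
    rw [eq_mul_inv_iff_mul_eq₀ (hgk0 i)]
    unfold gk gg
    rw [mul_comm, mul_assoc, inv_mul_cancel₀ (hHne _), mul_one]
    exact hsingle _
  have hsbh : sb q h = ∏ i ∈ range d,
      (algebraMap E (LaurentSeries E) (-(aeval (θ ^ (q ^ i)) (derivative w))⁻¹) * π1 *
        (gk q w θ i)⁻¹) ^ (q - 1 - dg q k i) := by
    rw [← hf, hh, map_multiset_prod, Multiset.map_map, hs]
    unfold msk
    rw [prod_map_sum]
    apply Finset.prod_congr rfl
    intro i _
    rw [Multiset.map_replicate, Multiset.prod_replicate]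
    congr 1
    show f (Hth q (θ ^ (q ^ i))) = _
    rw [hf, hsb]
  have hcardsum : ∑ i ∈ range d, (q - 1 - dg q k i) = n * (q - 1) := by
    rw [← hcard, hs]
    unfold msk
    rw [Multiset.card_sum]
    simp only [Multiset.card_replicate]
  have hπn : ∏ i ∈ range d, π1 ^ (q - 1 - dg q k i) = (-1) ^ n * T ^ n := by
    rw [Finset.prod_pow_eq_pow_sum, hcardsum]
    rw [mul_comm n (q - 1), pow_mul, ← mul_pow]
    congr 1
    rw [hπ1, hT]
    unfold TT
    rw [HahnSeries.single_pow]
    have : (-1 : LaurentSeries E) = HahnSeries.single (0 : ℤ) (-1 : E) := by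
      rw [← hC0, map_neg, map_one]
    rw [this, HahnSeries.single_mul_single, zero_add, one_pow, neg_one_mul, neg_neg]
    congr 1
    rw [nsmul_eq_mul, Nat.cast_sub (by omega)]
    push_cast
    ring
  have hm1 : ∏ i ∈ range d, (-1 : E) ^ (q - 1 - dg q k i) = 1 := by
    rw [Finset.prod_pow_eq_pow_sum, hcardsum, mul_comm, pow_mul]
    have : (-1 : E) ^ (q - 1) = 1 := by
      have h1 : (-1 : Fq) ^ (q - 1) = 1 := by
        rw [hD.hq]
        exact FiniteField.pow_card_sub_one_eq_one _ (neg_ne_zero.2 one_ne_zero)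
      have h2 := congrArg (algebraMap Fq E) h1
      simpa using h2
    rw [this, one_pow]
  have hfin : sb q h = algebraMap E (LaurentSeries E) ((-1) ^ n *
      ∏ i ∈ range d, ((aeval (θ ^ (q ^ i)) (derivative w))⁻¹) ^ (q - 1 - dg q k i)) * T ^ n *
      ∏ i ∈ range d, ((gk q w θ i)⁻¹) ^ (q - 1 - dg q k i) := by
    rw [hsbh]
    simp only [mul_pow]
    rw [Finset.prod_mul_distrib, Finset.prod_mul_distrib, hπn]
    have e1 : ∏ i ∈ range d, (algebraMap E (LaurentSeries E)
        (-(aeval (θ ^ (q ^ i)) (derivative w))⁻¹)) ^ (q - 1 - dg q k i) =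
        algebraMap E (LaurentSeries E) (∏ i ∈ range d,
          ((aeval (θ ^ (q ^ i)) (derivative w))⁻¹) ^ (q - 1 - dg q k i)) := by
      have e2 : ∏ i ∈ range d, (-(aeval (θ ^ (q ^ i)) (derivative w))⁻¹) ^ (q - 1 - dg q k i) =
          ∏ i ∈ range d, ((aeval (θ ^ (q ^ i)) (derivative w))⁻¹) ^ (q - 1 - dg q k i) := by
        calc ∏ i ∈ range d, (-(aeval (θ ^ (q ^ i)) (derivative w))⁻¹) ^ (q - 1 - dg q k i)
            = ∏ i ∈ range d, ((-1 : E) ^ (q - 1 - dg q k i) *
              ((aeval (θ ^ (q ^ i)) (derivative w))⁻¹) ^ (q - 1 - dg q k i)) := by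
              apply Finset.prod_congr rfl
              intro i _
              rw [← mul_pow, neg_one_mul]
          _ = _ := by rw [Finset.prod_mul_distrib, hm1, one_mul]
      rw [← e2, map_prod]
      apply Finset.prod_congr rfl
      intro i _
      rw [map_pow]
    rw [e1, map_mul, map_pow, map_neg, map_one]
    ring
  have hX : sb q (-(PowerSeries.X * (Frev * h))) = -(T⁻¹ * f Frev * sb q h) := by
    rw [← hf, map_neg, map_mul, map_mul, hfX, hf h]
    ring
  have hTn : (T⁻¹) ^ n * T ^ n = 1 := by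
    rw [← mul_pow, inv_mul_cancel₀ hT0, one_pow]
  rw [hΓ, hX, hFT, hfin, map_neg]
  linear_combination (-(aeval T F) * algebraMap E (LaurentSeries E) ((-1) ^ n *
      ∏ i ∈ range d, ((aeval (θ ^ (q ^ i)) (derivative w))⁻¹) ^ (q - 1 - dg q k i)) *
      ∏ i ∈ range d, ((gk q w θ i)⁻¹) ^ (q - 1 - dg q k i)) * hTn

end Run7.h11.GK
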